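import Pool.Agent.BOG.Stmts

/-!
Row GEN of table bog: generic coordinates.
-/

set_option autoImplicit false

namespace Pool.Agent.BOG.H77

open Polynomial Finset
open Pool.Agent.Helper61_Gamma (IsSimple RepOver Dt)

universe v

theorem avoid {K : Type v} [Field K] [Infinite K] {ι : Type} (S : Finset ι) (w : ι → Fin 3 → K)
    (hw : ∀ i ∈ S, w i ≠ 0) : ∃ t : K, ∀ i ∈ S, w i 0 + w i 1 * t + w i 2 * t ^ 2 ≠ 0 := by
  by_contra hcon
  push Not at hcon
  have hp : ∏ i ∈ S, (C (w i 0) + C (w i 1) * X + C (w i 2) * X ^ 2) = 0 := by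
    apply Polynomial.funext
    intro t
    obtain ⟨i, hi, h⟩ := hcon t
    rw [eval_prod, eval_zero]
    apply Finset.prod_eq_zero hi
    simp only [eval_add, eval_mul, eval_C, eval_X, eval_pow]
    exact h
  rw [Finset.prod_eq_zero_iff] at hp
  obtain ⟨i, hi, h⟩ := hp
  apply hw i hi
  funext j
  have h0 : (C (w i 0) + C (w i 1) * X + C (w i 2) * X ^ 2).coeff 0 = 0 := by rw [h, coeff_zero]
  have h1 : (C (w i 0) + C (w i 1) * X + C (w i 2) * X ^ 2).coeff 1 = 0 := by rw [h, coeff_zero]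
  have h2 : (C (w i 0) + C (w i 1) * X + C (w i 2) * X ^ 2).coeff 2 = 0 := by rw [h, coeff_zero]
  fin_cases j
  · simpa [coeff_C, coeff_X, coeff_X_pow] using h0
  · simpa [coeff_C, coeff_X, coeff_X_pow] using h1
  · simpa [coeff_C, coeff_X, coeff_X_pow] using h2

theorem conc_form {K : Type v} [Field K] (aP aQ aR bP bQ bR eP eQ eR : K) (hP : aP ≠ 0)
    (hQ : aQ ≠ 0) (hR : aR ≠ 0) :
    aP * aQ * aR * ((-bQ / aQ - -bP / aP) * (-eR / aR - -eP / aP) -
      (-bR / aR - -bP / aP) * (-eQ / aQ - -eP / aP)) =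
    aP * (bQ * eR - bR * eQ) - aQ * (bP * eR - bR * eP) + aR * (bP * eQ - bQ * eP) := by
  field_simp
  ring

/-- GEN. -/
theorem gen : GenStmt.{v} := by
  intro K _ _ n v hv
  classical
  rcases Nat.lt_or_ge n 2 with hn | hn
  · have hsub : ∀ P Q : Fin n, P = Q := by
      intro P Q
      have := P.2
      have := Q.2
      apply Fin.ext
      omega
    refine ⟨fun _ => 0, fun _ => 0, fun P Q _ => hsub P Q, fun P Q R => ?_⟩
    rw [hsub Q P, hsub R P]
    constructor
    · intro _
      simp [Conc]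
    · intro _
      unfold Dt
      ring
  · -- all vectors are non-zero
    have hne : ∀ P : Fin n, v P ≠ 0 := by
      intro P hP
      have hex : ∃ Q : Fin n, P ≠ Q := by
        by_cases h : P = ⟨0, by omega⟩
        · refine ⟨⟨1, by omega⟩, ?_⟩
          rw [h]
          intro h2
          have := congrArg Fin.val h2
          simp at this
        · exact ⟨_, h⟩
      obtain ⟨Q, hQ⟩ := hex
      have h := (hv P Q hQ).ne_zero 0
      exact h hP
    obtain ⟨t, ht⟩ := avoid (univ : Finset (Fin n)) v fun P _ => hne P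
    have hsm : ∀ (c : K) (f : Fin 3 → K) (i : Fin 3), (c • f) i = c * f i := fun c f i => rfl
    obtain ⟨s, hs⟩ := avoid (univ.filter fun x : Fin n × Fin n => x.1 ≠ x.2)
      (fun x => (v x.2 0 + v x.2 1 * t + v x.2 2 * t ^ 2) • v x.1 -
        (v x.1 0 + v x.1 1 * t + v x.1 2 * t ^ 2) • v x.2) (by
        intro x hx h0
        have hx2 : x.1 ≠ x.2 := (Finset.mem_filter.1 hx).2
        have h1 := LinearIndependent.pair_iff.1 (hv x.1 x.2 hx2)
          (v x.2 0 + v x.2 1 * t + v x.2 2 * t ^ 2)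
          (-(v x.1 0 + v x.1 1 * t + v x.1 2 * t ^ 2)) (by
            rw [neg_smul, ← sub_eq_add_neg]
            exact h0)
        exact ht x.2 (mem_univ _) h1.1)
    have hs' : ∀ P Q : Fin n, P ≠ Q →
        (v Q 0 + v Q 1 * t + v Q 2 * t ^ 2) * (v P 0 + v P 1 * s + v P 2 * s ^ 2) -
        (v P 0 + v P 1 * t + v P 2 * t ^ 2) * (v Q 0 + v Q 1 * s + v Q 2 * s ^ 2) ≠ 0 := by
      intro P Q hPQ
      have h := hs (P, Q) (Finset.mem_filter.2 ⟨mem_univ _, hPQ⟩)
      simp only [Pi.sub_apply, hsm] at h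
      intro h0
      apply h
      linear_combination h0
    have hst : s - t ≠ 0 := by
      intro h0
      have h1 : s = t := sub_eq_zero.1 h0
      have h2 := hs' ⟨0, by omega⟩ ⟨1, by omega⟩ (by
        intro h
        have := congrArg Fin.val h
        simp at this)
      apply h2
      rw [h1]
      ring
    refine ⟨fun P => -(v P 0 + v P 1 * s + v P 2 * s ^ 2) / (v P 0 + v P 1 * t + v P 2 * t ^ 2),
      fun P => -(v P 2) / (v P 0 + v P 1 * t + v P 2 * t ^ 2), ?_, ?_⟩
    · intro P Q hPQ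
      by_contra hne2
      apply hs' P Q hne2
      have hP := ht P (mem_univ _)
      have hQ := ht Q (mem_univ _)
      simp only [] at hPQ
      rw [div_eq_div_iff hP hQ] at hPQ
      linear_combination -hPQ
    · intro P Q R
      have hP := ht P (mem_univ _)
      have hQ := ht Q (mem_univ _)
      have hR := ht R (mem_univ _)
      have h1 := conc_form (v P 0 + v P 1 * t + v P 2 * t ^ 2) (v Q 0 + v Q 1 * t + v Q 2 * t ^ 2)
        (v R 0 + v R 1 * t + v R 2 * t ^ 2) (v P 0 + v P 1 * s + v P 2 * s ^ 2)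
        (v Q 0 + v Q 1 * s + v Q 2 * s ^ 2) (v R 0 + v R 1 * s + v R 2 * s ^ 2)
        (v P 2) (v Q 2) (v R 2) hP hQ hR
      have h2 : (v P 0 + v P 1 * t + v P 2 * t ^ 2) *
          ((v Q 0 + v Q 1 * s + v Q 2 * s ^ 2) * v R 2 -
            (v R 0 + v R 1 * s + v R 2 * s ^ 2) * v Q 2) -
          (v Q 0 + v Q 1 * t + v Q 2 * t ^ 2) *
          ((v P 0 + v P 1 * s + v P 2 * s ^ 2) * v R 2 -
            (v R 0 + v R 1 * s + v R 2 * s ^ 2) * v P 2) +
          (v R 0 + v R 1 * t + v R 2 * t ^ 2) *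
          ((v P 0 + v P 1 * s + v P 2 * s ^ 2) * v Q 2 -
            (v Q 0 + v Q 1 * s + v Q 2 * s ^ 2) * v P 2) =
          (s - t) * Dt (v P) (v Q) (v R) := by
        unfold Dt
        ring
      rw [h2] at h1
      unfold Conc
      constructor
      · intro h3
        rw [h3, mul_zero] at h1
        have h4 := mul_ne_zero (mul_ne_zero hP hQ) hR
        have h5 := (mul_eq_zero.1 h1).resolve_left h4
        exact sub_eq_zero.1 h5
      · intro h3
        have h6 := sub_eq_zero.2 h3
        rw [h6, mul_zero] at h1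
        exact (mul_eq_zero.1 h1.symm).resolve_left hst

end Pool.Agent.BOG.H77
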