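import Pool.Agent.BOG.Stmts

/-!
Row SEQ of table bog: a convex sequence of integers is a sum of three truncated ramps.
-/

set_option autoImplicit false

namespace Pool.Agent.BOG.H77

theorem thr (H : ℕ → ℕ) (s : ℕ) (hconv : ∀ j, 2 * H (j + 1) ≤ H (j + 2) + H j)
    (hs : ∀ j, s ≤ j → H j + s = 3 * j) (i : ℕ) (hi : i ≤ 3) :
    ∃ a, a ≤ s ∧ ∀ j, a ≤ j ↔ H j + i ≤ H (j + 1) := by
  classical
  have hex : ∃ j, H j + i ≤ H (j + 1) := by
    refine ⟨s, ?_⟩
    have h1 := hs s le_rfl
    have h2 := hs (s + 1) (by omega)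
    omega
  have hstep : ∀ j, H j + i ≤ H (j + 1) → H (j + 1) + i ≤ H (j + 2) := by
    intro j hj
    have := hconv j
    omega
  refine ⟨Nat.find hex, ?_, fun j => ⟨?_, ?_⟩⟩
  · apply Nat.find_min'
    have h1 := hs s le_rfl
    have h2 := hs (s + 1) (by omega)
    omega
  · intro hj
    induction j, hj using Nat.le_induction with
    | base => exact Nat.find_spec hex
    | succ j _ ih => exact hstep j ih
  · intro hj
    exact Nat.find_min' hex hj

/-- SEQ. -/
theorem seq : SeqStmt := by
  intro H s h0 h3 hconv hs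
  obtain ⟨a1, ha1, h1⟩ := thr H s hconv hs 1 (by norm_num)
  obtain ⟨a2, ha2, h2⟩ := thr H s hconv hs 2 (by norm_num)
  obtain ⟨a3, ha3, h3'⟩ := thr H s hconv hs 3 (by norm_num)
  have hmono : ∀ j, H j ≤ H (j + 1) := by
    intro j
    induction j with
    | zero =>
      rw [h0]
      exact Nat.zero_le _
    | succ j ih =>
      have := hconv j
      show H (j + 1) ≤ H (j + 1 + 1)
      have e : j + 1 + 1 = j + 2 := rfl
      rw [e]
      omega
  have h12 : a1 ≤ a2 := by
    rw [h1]
    have := (h2 a2).1 le_rfl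
    omega
  have h23 : a2 ≤ a3 := by
    rw [h2]
    have := (h3' a3).1 le_rfl
    omega
  have hform : ∀ j, H j = (j - a1) + (j - a2) + (j - a3) := by
    intro j
    induction j with
    | zero =>
      rw [h0]
      omega
    | succ j ih =>
      have e1 := h1 j
      have e2 := h2 j
      have e3 := h3' j
      have e4 := h3 j
      have e5 := hmono j
      omega
  refine ⟨a1, a2, a3, h12, h23, ?_, hform⟩
  have e1 := hs s le_rfl
  have e2 := hform s
  omega

end Pool.Agent.BOG.H77
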